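import Pool.Agent.DPF.Stmts

/-!
SHL (squad DPF): a shift does not decrease `Lam`.
-/

namespace Pool.Agent.DPF.H20

open Finset Pool.Agent.DPS Pool.Agent.DPF

/-- the swap of two points, acting on sets -/
def sg {n : ℕ} (y c : Fin n) : Finset (Fin n) ≃ Finset (Fin n) := (Equiv.swap y c).finsetCongr

theorem mem_sg {n : ℕ} (y c x : Fin n) (K : Finset (Fin n)) :
    x ∈ sg y c K ↔ Equiv.swap y c x ∈ K := by
  unfold sg
  rw [Equiv.finsetCongr_apply, Finset.mem_map_equiv, Equiv.symm_swap]

theorem sg_sg {n : ℕ} (y c : Fin n) (K : Finset (Fin n)) : sg y c (sg y c K) = K := by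
  ext x
  rw [mem_sg, mem_sg, Equiv.swap_apply_self]

theorem sg_subset {n : ℕ} (y c : Fin n) (R K : Finset (Fin n)) :
    sg y c R ⊆ sg y c K ↔ R ⊆ K := by
  constructor
  · intro h x hx
    have h1 : Equiv.swap y c x ∈ sg y c R := by
      rw [mem_sg, Equiv.swap_apply_self]; exact hx
    have h2 := h h1
    rwa [mem_sg, Equiv.swap_apply_self] at h2
  · intro h x hx
    rw [mem_sg] at hx ⊢
    exact h hx

theorem card_sg {n : ℕ} (y c : Fin n) (R : Finset (Fin n)) : (sg y c R).card = R.card := by
  unfold sg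
  rw [Equiv.finsetCongr_apply, Finset.card_map]

theorem sg_eq_self {n : ℕ} (y c : Fin n) (K : Finset (Fin n)) (h : y ∈ K ↔ c ∈ K) :
    sg y c K = K := by
  ext x
  rw [mem_sg]
  by_cases hx : x = y
  · subst hx
    rw [Equiv.swap_apply_left]; exact h.symm
  · by_cases hc : x = c
    · subst hc
      rw [Equiv.swap_apply_right]; exact h
    · rw [Equiv.swap_apply_of_ne_of_ne hx hc]

theorem compress_move {n : ℕ} (y c : Fin n) (hyc : y ≠ c) (K : Finset (Fin n)) (hy : y ∉ K)
    (hc : c ∈ K) : UV.compress {y} {c} K = sg y c K := by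
  rw [UV.compress_of_disjoint_of_le (by simpa using hy) (by simpa using hc)]
  ext x
  rw [mem_sg]
  by_cases hx : x = y
  · subst hx
    rw [Equiv.swap_apply_left]
    simp [hyc, hc]
  · by_cases hxc : x = c
    · subst hxc
      rw [Equiv.swap_apply_right]
      simp [hy]
    · rw [Equiv.swap_apply_of_ne_of_ne hx hxc]
      simp [hx, hxc]

theorem compress_stay {n : ℕ} (y c : Fin n) (K : Finset (Fin n)) (h : y ∈ K ∨ c ∉ K) :
    UV.compress {y} {c} K = K := by
  unfold UV.compress
  rw [if_neg]
  rintro ⟨h1, h2⟩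
  rcases h with h | h
  · exact (Finset.disjoint_singleton_left.mp h1) h
  · exact h (Finset.singleton_subset_iff.mp h2)

/-- membership in the shifted family, `y ∈ K`, `c ∉ K` -/
theorem mem_a {n : ℕ} (y c : Fin n) (hyc : y ≠ c) (F : Finset (Finset (Fin n)))
    (K : Finset (Fin n)) (hy : y ∈ K) (hc : c ∉ K) :
    K ∈ UV.compression {y} {c} F ↔ K ∈ F ∨ sg y c K ∈ F := by
  rw [UV.mem_compression, compress_stay y c K (Or.inl hy)]
  constructor
  · rintro (⟨h, -⟩ | ⟨-, b, hb, hbK⟩)
    · exact Or.inl h
    · by_cases h2 : y ∉ b ∧ c ∈ b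
      · rw [compress_move y c hyc b h2.1 h2.2] at hbK
        right
        rw [← hbK, sg_sg]; exact hb
      · rw [compress_stay y c b (by tauto)] at hbK
        left; rw [← hbK]; exact hb
  · intro h
    by_cases hK : K ∈ F
    · exact Or.inl ⟨hK, hK⟩
    · right
      refine ⟨hK, sg y c K, h.resolve_left hK, ?_⟩
      have h1 : y ∉ sg y c K := by rw [mem_sg, Equiv.swap_apply_left]; exact hc
      have h2 : c ∈ sg y c K := by rw [mem_sg, Equiv.swap_apply_right]; exact hy
      rw [compress_move y c hyc _ h1 h2, sg_sg]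

/-- membership in the shifted family, `y ∉ K`, `c ∈ K` -/
theorem mem_b {n : ℕ} (y c : Fin n) (hyc : y ≠ c) (F : Finset (Finset (Fin n)))
    (K : Finset (Fin n)) (hy : y ∉ K) (hc : c ∈ K) :
    K ∈ UV.compression {y} {c} F ↔ K ∈ F ∧ sg y c K ∈ F := by
  rw [UV.mem_compression, compress_move y c hyc K hy hc]
  constructor
  · rintro (h | ⟨-, b, hb, hbK⟩)
    · exact h
    · exfalso
      by_cases h2 : y ∉ b ∧ c ∈ b
      · rw [compress_move y c hyc b h2.1 h2.2] at hbK
        apply hy
        rw [← hbK, mem_sg, Equiv.swap_apply_left]; exact h2.2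
      · rw [compress_stay y c b (by tauto)] at hbK
        rw [hbK] at h2
        exact h2 ⟨hy, hc⟩
  · intro h
    exact Or.inl h

/-- membership in the shifted family, other sets -/
theorem mem_c {n : ℕ} (y c : Fin n) (hyc : y ≠ c) (F : Finset (Finset (Fin n)))
    (K : Finset (Fin n)) (h : y ∈ K ↔ c ∈ K) :
    K ∈ UV.compression {y} {c} F ↔ K ∈ F := by
  have hst : UV.compress {y} {c} K = K := compress_stay y c K (by tauto)
  rw [UV.mem_compression, hst]
  constructor
  · rintro (⟨h1, -⟩ | ⟨-, b, hb, hbK⟩)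
    · exact h1
    · by_cases h2 : y ∉ b ∧ c ∈ b
      · exfalso
        rw [compress_move y c hyc b h2.1 h2.2] at hbK
        have h3 : y ∈ K := by rw [← hbK, mem_sg, Equiv.swap_apply_left]; exact h2.2
        have h4 : c ∉ K := by rw [← hbK, mem_sg, Equiv.swap_apply_right]; exact h2.1
        exact h4 (h.mp h3)
      · rw [compress_stay y c b (by tauto)] at hbK
        rw [← hbK]; exact hb
  · intro h1
    exact Or.inl ⟨h1, h1⟩

open Classical in
/-- the indicator of the family -/
noncomputable def ind {n : ℕ} (F : Finset (Finset (Fin n))) (K : Finset (Fin n)) : ℝ :=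
  if K ∈ F then 1 else 0

theorem degree_eq {n : ℕ} (F : Finset (Finset (Fin n))) (R : Finset (Fin n)) :
    (degree F R : ℝ) = ∑ K : Finset (Fin n), if R ⊆ K then ind F K else 0 := by
  classical
  unfold degree ind
  rw [← Finset.sum_filter, Finset.sum_boole, Finset.filter_filter]
  congr 2
  ext K
  simp only [Finset.mem_filter, Finset.mem_univ, true_and]
  tauto

theorem ind_add {n : ℕ} (y c : Fin n) (hyc : y ≠ c) (F : Finset (Finset (Fin n)))
    (K : Finset (Fin n)) :
    ind (UV.compression {y} {c} F) K + ind (UV.compression {y} {c} F) (sg y c K) =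
      ind F K + ind F (sg y c K) := by
  classical
  have hy' : y ∈ sg y c K ↔ c ∈ K := by rw [mem_sg, Equiv.swap_apply_left]
  have hc' : c ∈ sg y c K ↔ y ∈ K := by rw [mem_sg, Equiv.swap_apply_right]
  by_cases h : y ∈ K ↔ c ∈ K
  · have h1 := mem_c y c hyc F K h
    rw [sg_eq_self y c K h]
    unfold ind
    simp only [h1]
  · by_cases hy : y ∈ K
    · have hc : c ∉ K := by tauto
      have h1 := mem_a y c hyc F K hy hc
      have h2 := mem_b y c hyc F (sg y c K) (by rw [hy']; exact hc) (by rw [hc']; exact hy)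
      rw [sg_sg] at h2
      unfold ind
      simp only [h1, h2]
      by_cases e1 : K ∈ F <;> by_cases e2 : sg y c K ∈ F <;> simp [e1, e2]
    · have hc : c ∈ K := by tauto
      have h1 := mem_b y c hyc F K hy hc
      have h2 := mem_a y c hyc F (sg y c K) (by rw [hy']; exact hc) (by rw [hc']; exact hy)
      rw [sg_sg] at h2
      unfold ind
      simp only [h1, h2]
      by_cases e1 : K ∈ F <;> by_cases e2 : sg y c K ∈ F <;> simp [e1, e2]

theorem ind_ge {n : ℕ} (y c : Fin n) (hyc : y ≠ c) (F : Finset (Finset (Fin n)))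
    (K : Finset (Fin n)) (hy : y ∈ K) :
    ind F K ≤ ind (UV.compression {y} {c} F) K ∧
      ind F (sg y c K) ≤ ind (UV.compression {y} {c} F) K := by
  classical
  by_cases hc : c ∈ K
  · have h : y ∈ K ↔ c ∈ K := by tauto
    have h1 := mem_c y c hyc F K h
    rw [sg_eq_self y c K h]
    unfold ind
    simp only [h1]
    exact ⟨le_refl _, le_refl _⟩
  · have h1 := mem_a y c hyc F K hy hc
    unfold ind
    simp only [h1]
    by_cases e1 : K ∈ F <;> by_cases e2 : sg y c K ∈ F <;> simp [e1, e2]

theorem degree_sg {n : ℕ} (y c : Fin n) (F : Finset (Finset (Fin n))) (R : Finset (Fin n)) :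
    (degree F (sg y c R) : ℝ) =
      ∑ K : Finset (Fin n), if R ⊆ K then ind F (sg y c K) else 0 := by
  rw [degree_eq, ← Equiv.sum_comp (sg y c)]
  apply Finset.sum_congr rfl
  intro K _
  simp only [sg_subset]

theorem deg_add {n : ℕ} (y c : Fin n) (hyc : y ≠ c) (F : Finset (Finset (Fin n)))
    (R : Finset (Fin n)) :
    (degree (UV.compression {y} {c} F) R : ℝ) + degree (UV.compression {y} {c} F) (sg y c R) =
      degree F R + degree F (sg y c R) := by
  rw [degree_eq, degree_sg, degree_eq, degree_sg, ← Finset.sum_add_distrib,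
    ← Finset.sum_add_distrib]
  apply Finset.sum_congr rfl
  intro K _
  by_cases h : R ⊆ K
  · rw [if_pos h, if_pos h, if_pos h, if_pos h]
    exact ind_add y c hyc F K
  · rw [if_neg h, if_neg h, if_neg h, if_neg h]

theorem deg_ge {n : ℕ} (y c : Fin n) (hyc : y ≠ c) (F : Finset (Finset (Fin n)))
    (R : Finset (Fin n)) (hy : y ∈ R) :
    (degree F R : ℝ) ≤ degree (UV.compression {y} {c} F) R ∧
      (degree F (sg y c R) : ℝ) ≤ degree (UV.compression {y} {c} F) R := by
  rw [degree_eq, degree_sg, degree_eq]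
  constructor
  · apply Finset.sum_le_sum
    intro K _
    by_cases h : R ⊆ K
    · rw [if_pos h, if_pos h]
      exact (ind_ge y c hyc F K (h hy)).1
    · rw [if_neg h, if_neg h]
  · apply Finset.sum_le_sum
    intro K _
    by_cases h : R ⊆ K
    · rw [if_pos h, if_pos h]
      exact (ind_ge y c hyc F K (h hy)).2
    · rw [if_neg h, if_neg h]

/-- `a' + b' = a + b`, `a' ≥ max a b`. -/
theorem ph_conv (θ a b a' b' : ℝ) (h : a' + b' = a + b) (h1 : a ≤ a') (h2 : b ≤ a') :
    ph θ a + ph θ b ≤ ph θ a' + ph θ b' := by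
  unfold ph
  have hb' : b' = a + b - a' := by linarith
  subst hb'
  rcases le_total (a - θ) 0 with ha | ha <;> rcases le_total (b - θ) 0 with hb | hb <;>
    rcases le_total (a' - θ) 0 with hc | hc <;>
    rcases le_total (a + b - a' - θ) 0 with hd | hd
  all_goals
    simp only [ha, hb, hc, hd, max_eq_left, max_eq_right]
    nlinarith [sq_nonneg (a' - θ), sq_nonneg (a + b - a' - θ), mul_nonneg (sub_nonneg.mpr h1)
      (sub_nonneg.mpr h2)]

theorem pair_le {n : ℕ} (θ : ℝ) (y c : Fin n) (hyc : y ≠ c) (F : Finset (Finset (Fin n)))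
    (R : Finset (Fin n)) :
    ph θ (degree F R : ℝ) + ph θ (degree F (sg y c R) : ℝ) ≤
      ph θ (degree (UV.compression {y} {c} F) R : ℝ) +
        ph θ (degree (UV.compression {y} {c} F) (sg y c R) : ℝ) := by
  have hadd := deg_add y c hyc F R
  by_cases hy : y ∈ R
  · have hge := deg_ge y c hyc F R hy
    exact ph_conv θ _ _ _ _ hadd hge.1 hge.2
  · by_cases hc : c ∈ R
    · have hy' : y ∈ sg y c R := by rw [mem_sg, Equiv.swap_apply_left]; exact hc
      have hge := deg_ge y c hyc F (sg y c R) hy'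
      rw [sg_sg] at hge
      have := ph_conv θ _ _ _ (degree (UV.compression {y} {c} F) R : ℝ)
        (by rw [add_comm, hadd, add_comm] : (degree (UV.compression {y} {c} F) (sg y c R) : ℝ) +
          degree (UV.compression {y} {c} F) R = degree F (sg y c R) + degree F R) hge.1 hge.2
      linarith
    · have hs : sg y c R = R := sg_eq_self y c R (by tauto)
      rw [hs] at hadd ⊢
      have h2 : (degree (UV.compression {y} {c} F) R : ℝ) = degree F R := by linarith
      rw [h2]

theorem shl : SHLStmt := by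
  intro n r θ c y F hyc
  unfold Lam
  have hre : ∀ G : Finset (Finset (Fin n)),
      ∑ R ∈ powersetCard r (univ : Finset (Fin n)), ph θ (degree G (sg y c R) : ℝ) =
        ∑ R ∈ powersetCard r (univ : Finset (Fin n)), ph θ (degree G R : ℝ) := by
    intro G
    apply Finset.sum_bij' (fun R _ => sg y c R) (fun R _ => sg y c R)
    · intro R hR
      rw [mem_powersetCard] at hR ⊢
      exact ⟨subset_univ _, by rw [card_sg]; exact hR.2⟩
    · intro R hR
      rw [mem_powersetCard] at hR ⊢
      exact ⟨subset_univ _, by rw [card_sg]; exact hR.2⟩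
    · intro R _
      exact sg_sg y c R
    · intro R _
      exact sg_sg y c R
    · intro R _
      rfl
  have hsum : ∑ R ∈ powersetCard r (univ : Finset (Fin n)),
      (ph θ (degree F R : ℝ) + ph θ (degree F (sg y c R) : ℝ)) ≤
      ∑ R ∈ powersetCard r (univ : Finset (Fin n)),
        (ph θ (degree (UV.compression {y} {c} F) R : ℝ) +
          ph θ (degree (UV.compression {y} {c} F) (sg y c R) : ℝ)) :=
    Finset.sum_le_sum fun R _ => pair_le θ y c hyc F R
  rw [Finset.sum_add_distrib, Finset.sum_add_distrib, hre, hre] at hsum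
  linarith

end Pool.Agent.DPF.H20
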